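import Mathlib
import Pool.Agent.H.MP_8eb9f8_al.C

namespace Pool.Agent.Results.MP_8eb9f8_al.Exists

open Pool.Agent.H.MP_8eb9f8_al

universe u

theorem result : ∃ (G : Type) (_ : Group G),
    Group.ResiduallyFinite G ∧
    (∀ H : Subgroup G, H.FiniteIndex →
      Infinite H ∧ ∀ M : Subgroup H, M.Normal → M ≠ ⊥ → M.FiniteIndex) ∧
    (∃ (X : Type) (_ : Fintype X), 2 ≤ Fintype.card X ∧
      ∃ ρ : G →* Equiv.Perm (List X), Function.Injective ρ ∧
        ∀ (g : G) (x : X), ∃ (y : X) (h : G), ∀ w : List X, ρ g (x :: w) = y :: ρ h w) ∧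
    ∀ (K : Type u) [Field K] (n : ℕ) (φ : G →* GL (Fin n) K), ¬ Function.Injective φ := by
  classical
  have hS : commutator (alternatingGroup (Fin 5)) = ⊤ :=
    commutator_alternatingGroup_eq_top (by simp)
  have hnt : Nontrivial (alternatingGroup (Fin 5)) := inferInstance
  have hst : ∃ s t : alternatingGroup (Fin 5), s * t ≠ t * s := by
    by_contra hc
    push Not at hc
    have hb : commutator (alternatingGroup (Fin 5)) ≤ ⊥ := by
      rw [commutator_eq_closure, Subgroup.closure_le]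
      rintro _ ⟨a, b, rfl⟩
      change a * b * a⁻¹ * b⁻¹ = 1
      rw [hc a b]; group
    rw [hS] at hb
    exact top_ne_bot (le_bot_iff.1 hb)
  obtain ⟨s, t, hst⟩ := hst
  obtain ⟨C, hC⟩ := exists_C (alternatingGroup (Fin 5))
  refine ⟨GG hC, inferInstance, rf hC, hji hC hS,
    ⟨alternatingGroup (Fin 5), inferInstance, Fintype.one_lt_card,
      (MulAction.toPermHom _ _).comp (GG hC).subtype, ?_, ?_⟩, fun K _ n φ => nonlin hC hst K n φ⟩
  · intro a b h
    exact Subtype.ext (faithful fun w => congrArg (fun p : Equiv.Perm _ => p w) h)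
  · intro g x
    exact ⟨g.1.lab [] * x, ⟨g.1.sec x, sec_mem hC g.2 x⟩, fun w => rfl⟩

end Pool.Agent.Results.MP_8eb9f8_al.Exists
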